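import Pool.Agent.Lib.MP_fa224b_lc.C.Final

namespace Pool.Agent.Results.MP_fa224b_lc.CountableToOne

open Pool.Agent.Lib.MP_fa224b_lc

/-- A Turing invariant function that is countable-to-one on some cone is above the identity on a
cone.  For Borel functions there is no determinacy hypothesis. -/
theorem result (𝒜 : MeasurableSpace B) (h𝒜 : 𝒜 = MeasurableSpace.pi ∨ Adequate 𝒜) (F : B → B)
    (hF : @Measurable B B 𝒜 MeasurableSpace.pi F) (hinv : ∀ x y, TEq x y → TEq (F x) (F y))
    (hc : ∃ c, ∀ v, {x | TLe c x ∧ F x = v}.Countable) : ∃ c, ∀ x, TLe c x → TLe x (F x) := by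
  by_contra hn
  obtain ⟨c, h1⟩ := C.finalForm (h𝒜.elim (fun e => e ▸ BD.borel_adequate) fun h => h) hF hinv hn
  obtain ⟨c', h2⟩ := hc
  obtain ⟨v, hv⟩ := C.MainV.fibre (C.MainC.le_joinr c c') (h1 _ (C.MainC.le_joinl c c'))
  exact hv (h2 v)

end Pool.Agent.Results.MP_fa224b_lc.CountableToOne
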