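import Pool.Agent.Lib.MP_fa224b_lc.C.Final

namespace Pool.Agent.Results.MP_fa224b_lc.RandomJoin

open Pool.Agent.Lib.MP_fa224b_lc MeasureTheory ProbabilityTheory

/-- The fair coin measure on Cantor space. -/
noncomputable def coin : Measure (ℕ → Bool) :=
  Measure.infinitePi fun _ => uniformOn (Set.univ : Set Bool)

/-- The join of a real and a binary sequence. -/
def rjoin (z : B) (a : ℕ → Bool) : B :=
  fun n => if n % 2 = 0 then z (n / 2) else (a (n / 2)).toNat

/-- A Turing invariant function that is not above the identity on a cone is, on a cone of `z`,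
almost everywhere constant along the random joins `z ⊕ a`.  For Borel functions there is no
determinacy hypothesis. -/
theorem result (𝒜 : MeasurableSpace B) (h𝒜 : 𝒜 = MeasurableSpace.pi ∨ Adequate 𝒜) (F : B → B)
    (hF : @Measurable B B 𝒜 MeasurableSpace.pi F) (hinv : ∀ x y, TEq x y → TEq (F x) (F y))
    (hn : ¬ ∃ c, ∀ x, TLe c x → TLe x (F x)) :
    ∃ c, ∀ z, TLe c z → ∃ v, ∀ᵐ a ∂coin, TEq (F (rjoin z a)) v :=
  C.finalForm (h𝒜.elim (fun e => e ▸ BD.borel_adequate) fun h => h) hF hinv hn

end Pool.Agent.Results.MP_fa224b_lc.RandomJoin
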