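import Pool.Agent.Lib.MP_fa224b_lc.C.Final
import Pool.Agent.Lib.MP_fa224b_lc.K.GameB

namespace Pool.Agent.Results.MP_fa224b_lc.RandomType

open Pool.Agent.Lib.MP_fa224b_lc MeasureTheory

/-- The clopen subset of Cantor space given by a finite list of binary strings. -/
def cyl (S : List (List Bool)) : Set (ℕ → Bool) := {y | ∃ s ∈ S, (List.range s.length).map y = s}

/-- Let `F` be Turing invariant and not above the identity on a cone, and let the degree of `G x`
depend only on the degree of `F x` (for example `G = F`, or a jump of `F x` joined with a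
parameter).  Then there is one Borel probability measure `β` such that, on a cone of `x`, every
binary sequence computable from `G x` passes every Schnorr test for `β` computable from `x`. -/
theorem result (𝒜 : MeasurableSpace B) (h𝒜 : 𝒜 = MeasurableSpace.pi ∨ Adequate 𝒜) (F G : B → B)
    (hF : @Measurable B B 𝒜 MeasurableSpace.pi F) (hG : @Measurable B B 𝒜 MeasurableSpace.pi G)
    (hinv : ∀ x y, TEq x y → TEq (F x) (F y))
    (hFG : ∀ x y, TEq (F x) (F y) → TEq (G x) (G y))
    (hn : ¬ ∃ c, ∀ x, TLe c x → TLe x (F x)) :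
    ∃ β : Measure (ℕ → Bool), IsProbabilityMeasure β ∧ ∃ c, ∀ x, TLe c x →
      ∀ W : ℕ → List (List Bool), TLe (fun n => Encodable.encode (W n)) x →
        (∀ n, β (cyl (W n)) ≤ 2⁻¹ ^ n) → ∀ y : ℕ → Bool, TLe (fun n => (y n).toNat) (G x) →
          {n | y ∈ cyl (W n)}.Finite := by
  have h : Adequate 𝒜 := h𝒜.elim (fun e => e ▸ BD.borel_adequate) fun h => h
  have hinv' : ∀ x y, TEq x y → TEq (G x) (G y) := fun x y e => hFG _ _ (hinv _ _ e)
  rcases h.determined _ (K.meas_win h hG) with ⟨σ, hσ⟩ | ⟨τ, hτ⟩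
  · obtain ⟨c, hc⟩ := C.finalForm h hF hinv hn
    obtain ⟨τ, hτ⟩ := K.notI hinv' ⟨c, fun z hz => by
      obtain ⟨v, hv⟩ := hc z hz
      obtain ⟨a, ha⟩ := hv.exists
      exact ⟨_, hv.mono fun a' ha' => hFG _ _ (ha'.trans ha.symm)⟩⟩ σ
    exact absurd (hσ τ) hτ
  · exact K.ofII hinv' hτ

end Pool.Agent.Results.MP_fa224b_lc.RandomType
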