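import Pool.Agent.Lib.MP_fa224b_lc.Defs
import Pool.Agent.Lib.MP_fa224b_lc.Main
import Pool.Agent.Lib.MP_fa224b_lc.BD.Borel

namespace Pool.Agent.Results.MP_fa224b_lc.SlowGrowth

open Pool.Agent.Lib.MP_fa224b_lc

/-- If the images under `F` of the graphs of finitely many Turing equivalences grow slowly on a
cone, then one value of `F` is taken in every degree of a cone; so a Turing invariant such `F` is
constant on a cone. -/
theorem result (𝒜 : MeasurableSpace B) (h𝒜 : 𝒜 = MeasurableSpace.pi ∨ Adequate 𝒜) (F : B → B)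
    (hF : @Measurable B B 𝒜 MeasurableSpace.pi F)
    (hg : ∀ G : Finset (OC × OC), ∃ (c : B) (L : ℕ), ∀ d, TLe c d → ∀ v,
      (ball F d G (2 * L + 3) v).encard ≤ 2 ^ L) :
    ∃ c v : B, (∀ x, TLe c x → ∃ y, TEq y x ∧ F y = v) ∧
      ((∀ x y, TEq x y → TEq (F x) (F y)) → ∀ x, TLe c x → TEq (F x) v) := by
  obtain ⟨c, v, h⟩ := core (h𝒜.elim (fun e => e ▸ BD.borel_adequate) fun h => h) F hF hg
  refine ⟨c, v, h, fun hinv x hx => ?_⟩
  obtain ⟨y, h1, rfl⟩ := h x hx
  exact hinv x y h1.symm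

end Pool.Agent.Results.MP_fa224b_lc.SlowGrowth
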